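import Pool.Agent.helper74.VN.SpecC
import Pool.Agent.helper89.VQ.VSA

/-!
# MP_07c750_an, project VN, row NSA: the synthesis of beams is a contraction (helper5, copy of `Pool/Agent/helper89/VQ/VSA.lean`)
-/

set_option autoImplicit false

open scoped MatrixGroups ContDiff Topology UpperHalfPlane ComplexConjugate ENNReal
open UpperHalfPlane MeasureTheory Filter Set

namespace Pool.Agent.VN

open Pool.Agent.RS Pool.Agent.VQ

noncomputable section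

theorem NSA_win {R k : ℝ} (hW : 2 * R ^ (-(1 / 4) : ℝ) ≤ k) {E : ℝ} (hE : E ∈ Wi 2 R) : |E| ≤ k :=
  abs_le.mpr ⟨by have := hE.1; linarith, hE.2.trans hW⟩

/-- integrability of the integrand of the synthesis -/
theorem NSA_int (hVDM : VDM_stmt) {C k : ℝ} (hNFR : ∀ (Γ : Subgroup SL(2, ℝ)) (F : Set ℍ) (B : ℕ → ℝ) (D : Dyn) (K : ℕ) (η m R t : ℝ) (f : SL(2, ℝ) × ℝ → ℂ → ℂ), Dm Γ F → OKN Γ k B D → 0 < η → η ≤ 1 / 4 → 0 ≤ m → R ^ (-(1 / 2) + η) ≤ 1 / 4 → 2 * R ^ (-(1 / 4) : ℝ) ≤ k → 1 ≤ R → FaN Γ k D K η m R t f →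
    ContinuousOn (fun x : (SL(2, ℝ) × ℝ) × ℍ => pF D t f x.1 x.2) {x | |x.1.2| ≤ k} ∧ (∀ p ∈ GW 2 R, ∀ z, ‖pF D t f p z‖ ≤ m ∧ (pF D t f p z ≠ 0 → dist (D.fl p.2 t p.1 • I : ℍ) z ≤ 1 ∧ dist (p.1 • I : ℍ) z ≤ C * |t| + 1)) ∧
    (∀ (γ : Γ) (p : SL(2, ℝ) × ℝ) (z : ℍ), |p.2| ≤ k → pF D t f ((γ : SL(2, ℝ)) * p.1, p.2) (γ • z) = pF D t f p z) ∧
    (∀ v, FP Γ F v → FH Γ F (sF D R t f v)) ∧ (∀ φ, FH Γ F φ → FP Γ F (aF D R t f φ)) ∧
    ∀ φ v, FH Γ F φ → FP Γ F v → ∫ p in PW F 2 R, aF D R t f φ p * conj (v p) ∂mP = ∫ z in F, φ z * conj (sF D R t f v z))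
    {Γ : Subgroup SL(2, ℝ)} {F : Set ℍ} {B : ℕ → ℝ} {D : Dyn} {K : ℕ} {η m R t : ℝ}
    {f : SL(2, ℝ) × ℝ → ℂ → ℂ} (hDm : Dm Γ F) (hD : OKN Γ k B D) (hη : 0 < η) (hη4 : η ≤ 1 / 4) (hm : 0 ≤ m)
    (hRη : R ^ (-(1 / 2) + η) ≤ 1 / 4) (hW : 2 * R ^ (-(1 / 4) : ℝ) ≤ k) (hR : 1 ≤ R) (hfa : FaN Γ k D K η m R t f)
    {v : SL(2, ℝ) × ℝ → ℂ} (hv : FP Γ F v) (z : ℍ) : IntegrableOn (fun q => v q * pF D t f q z) (GW 2 R) mP := by
  obtain ⟨hc, hb, -⟩ := hNFR Γ F B D K η m R t f hDm hD hη hη4 hm hRη hW hR hfa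
  have hk1 := hD.pot.kpos.2
  obtain ⟨b, hvb⟩ := hv.bdd
  have hW0 : 0 ≤ R ^ (-(1 / 4) : ℝ) := Real.rpow_nonneg (by linarith) _
  have hGW : MeasurableSet (GW 2 R) := MeasurableSet.univ.prod measurableSet_Icc
  set r0 : ℝ := C * |t| + 1 + dist z I with hr0
  set S : Set (SL(2, ℝ) × ℝ) := {g : SL(2, ℝ) | dist (g • I : ℍ) I ≤ r0} ×ˢ (Wi 2 R ∩ Icc (-1) 1) with hS
  have hSc : IsClosed {g : SL(2, ℝ) | dist (g • I : ℍ) I ≤ r0} :=
    isClosed_le ((continuous_id.smul continuous_const).dist continuous_const) continuous_const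
  have hSm : MeasurableSet S := hSc.measurableSet.prod (measurableSet_Icc.inter measurableSet_Icc)
  have hSf : mP S < ⊤ := (hVDM Γ F hDm).2.2.2.2 (Wi 2 R) measurableSet_Icc |>.2.2.2.2.2 r0
  have hSG : S ⊆ GW 2 R := fun q hq => ⟨mem_univ _, hq.2.1⟩
  have hcz : ContinuousOn (fun q : SL(2, ℝ) × ℝ => pF D t f q z) (GW 2 R) := by
    have h1 : ContinuousOn (fun q : SL(2, ℝ) × ℝ => (q, z)) (GW 2 R) := by fun_prop
    exact hc.comp h1 (fun q hq => NSA_win hW hq.2)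
  have i1 : IntegrableOn (fun q => v q * pF D t f q z) S mP := by
    have : IsFiniteMeasure (mP.restrict S) := ⟨by rw [Measure.restrict_apply_univ]; exact hSf⟩
    refine Integrable.of_bound (hv.meas.aestronglyMeasurable.mul ((hcz.mono hSG).aestronglyMeasurable hSm)) (b * m) ?_
    refine (ae_restrict_mem hSm).mono (fun q hq => ?_)
    have h2 := (hb q (hSG hq) z).1
    have h3 := hvb q
    show ‖v q * pF D t f q z‖ ≤ b * m
    rw [norm_mul]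
    exact mul_le_mul h3 h2 (norm_nonneg _) ((norm_nonneg _).trans h3)
  refine i1.of_forall_sdiff_eq_zero hGW (fun q hq => ?_)
  by_contra h0
  have h1 : pF D t f q z ≠ 0 := fun h => h0 (by show v q * pF D t f q z = 0; rw [h, mul_zero])
  have h2 := ((hb q hq.1 z).2 h1).2
  apply hq.2
  refine ⟨?_, hq.1.2, ?_⟩
  · show dist (q.1 • I : ℍ) I ≤ r0
    have := dist_triangle (q.1 • I : ℍ) z I
    rw [hr0]
    linarith
  · have := NSA_win hW hq.1.2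
    rw [abs_le] at this
    exact ⟨by linarith [this.1], by linarith [this.2]⟩

/-- the window is small -/
theorem NSA_k {R k : ℝ} (hk : 0 < k) (hR : (2 / k) ^ 4 ≤ R) : 2 * R ^ (-(1 / 4) : ℝ) ≤ k := by
  have h0 : 0 < 2 / k := by positivity
  have hR0 : 0 < R := lt_of_lt_of_le (by positivity) hR
  have h1 : 2 / k ≤ R ^ (1 / 4 : ℝ) := by
    have h2 : 2 / k = ((2 / k) ^ 4) ^ (1 / 4 : ℝ) := by
      rw [← Real.rpow_natCast, ← Real.rpow_mul h0.le]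
      norm_num
    rw [h2]
    exact Real.rpow_le_rpow (by positivity) hR (by norm_num)
  rw [Real.rpow_neg hR0.le]
  have h3 : 0 < R ^ (1 / 4 : ℝ) := Real.rpow_pos_of_pos hR0 _
  rw [div_le_iff₀ hk] at h1
  rw [← div_eq_mul_inv, div_le_iff₀ h3]
  linarith

theorem NSA_proof (hNEN : NEN_stmt) (hNFD : NFD_stmt) (hNFB : NFB_stmt) (hNFM : NFM_stmt) (hNFR : NFR_stmt) (hND0 : ND0_stmt)
    (hNQA : NQA_stmt) (hNUB : NUB_stmt) (hVDM : VQ.VDM_stmt) : NSA_stmt := by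
  intro k hk
  obtain ⟨CF, hCF, HF⟩ := hNFB k hk
  obtain ⟨CM, hCM, HM⟩ := hNFM k hk
  obtain ⟨C0, hC0, H0⟩ := hND0 k hk
  obtain ⟨CR, hCR, HR⟩ := hNFR k hk
  obtain ⟨CU, hCU, HU⟩ := hNUB k hk
  have hCC : 1 ≤ 16 * (1 + CF) * (CM + C0) := by nlinarith
  refine ⟨16 * (1 + CF) * (CM + C0), hCC, ?_⟩
  intro ch e ζ ζ1 B hch hRg
  obtain ⟨he0, hζ0, hζζ1, hCe, hCζ⟩ := hRg
  have hζ1 : 0 < ζ1 := lt_of_lt_of_le hζ0 hζζ1
  have hp1 : 0 ≤ CF * (CM * ζ1) := by positivity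
  have hp2 : 0 ≤ CF * (C0 * ζ1) := by positivity
  have hp3 : 0 < CM * ζ1 := by positivity
  have hp4 : 0 < C0 * ζ1 := by positivity
  have hexp : 16 * (CM * ζ1 + C0 * ζ1 + CF * (CM * ζ1) + CF * (C0 * ζ1)) ≤ 1 := by nlinarith
  have hζ16 : ζ1 ≤ 1 / 16 := by nlinarith
  have hCMe : CM * e ≤ ζ1 := by
    refine le_trans (mul_le_mul_of_nonneg_right ?_ he0) hCe
    nlinarith
  have hC0e : C0 * e ≤ ζ1 := by
    refine le_trans (mul_le_mul_of_nonneg_right ?_ he0) hCe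
    nlinarith
  have he1 : e ≤ 1 := by nlinarith
  obtain ⟨K1, R1, hR1, HF1⟩ := HF (CM * ζ1) hp3 (by linarith)
  obtain ⟨R2, hR2, HM1⟩ := HM ch K1 e ζ ζ1 B hch ⟨he0, hζ0, hζζ1, hCMe, by linarith⟩
  obtain ⟨K2, R3, hR3, HF2⟩ := HF (C0 * ζ1) hp4 (by linarith)
  obtain ⟨R4, hR4, HD0⟩ := H0 ch K2 e ζ ζ1 ζ1 2 hch ⟨he0, hζ0, hζζ1, hC0e, by linarith⟩ le_rfl (by linarith)
  obtain ⟨R5, hR5, HQ⟩ := hNQA ch ζ k hch hk hζ0 (by linarith)
  refine ⟨max (max (max R1 R2) (max R3 R4)) (max (max R5 ((2 / k) ^ 4)) (17 ^ 8)), le_trans (by norm_num) ((le_max_right (max R5 ((2 / k) ^ 4)) ((17 : ℝ) ^ 8)).trans (le_max_right _ _)), ?_⟩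
  intro R t Γ F D hR hDm hOK ht0 ht
  have hRa : R1 ≤ R := (le_max_left _ _).trans ((le_max_left _ _).trans ((le_max_left _ _).trans hR))
  have hRb : R2 ≤ R := (le_max_right _ _).trans ((le_max_left _ _).trans ((le_max_left _ _).trans hR))
  have hRc : R3 ≤ R := (le_max_left _ _).trans ((le_max_right _ _).trans ((le_max_left _ _).trans hR))
  have hRd : R4 ≤ R := (le_max_right _ _).trans ((le_max_right _ _).trans ((le_max_left _ _).trans hR))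
  have hRe : R5 ≤ R := (le_max_left _ _).trans ((le_max_left _ _).trans ((le_max_right _ _).trans hR))
  have hRk : (2 / k) ^ 4 ≤ R := (le_max_right _ _).trans ((le_max_left _ _).trans ((le_max_right _ _).trans hR))
  have hRf : (17 : ℝ) ^ 8 ≤ R := (le_max_right _ _).trans ((le_max_right _ _).trans hR)
  have hR0 : 0 < R := lt_of_lt_of_le (by norm_num) hRf
  have hR1' : 1 ≤ R := le_trans (by norm_num) hRf
  have hR2' : 2 ≤ R := le_trans (by norm_num) hRf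
  obtain ⟨-, hη, hnum⟩ := VSA_num hRf
  have hW : 2 * R ^ (-(1 / 4) : ℝ) ≤ k := NSA_k hk hRk
  have hlog : 0 ≤ Real.log R := Real.log_nonneg hR1'
  have htlog : t ≤ Real.log R := ht.trans (by nlinarith)
  have hPU : PV Γ k D.U := (HU Γ B D.U hOK.pot).1
  -- the families
  have hM := fun (s : ℝ) (hs : |s| ≤ e * Real.log R) => HM1 R s Γ D hRb hOK hs
  have hM0 := hM 0 (by rw [abs_zero]; positivity)
  set f0 : SL(2, ℝ) × ℝ → ℂ → ℂ := fun p u => pv D ch ζ ζ1 R 0 p u - fG D ch ζ R p u with hf0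
  have hfa0 : FaN Γ k D K2 (C0 * ζ1) (R ^ (-2 : ℝ)) R 0 f0 := by
    refine ⟨hM0.1.cont.sub hM0.2.2.1.cont, ?_, ?_⟩
    · intro γ p
      funext u
      show pv D ch ζ ζ1 R 0 ((γ : SL(2, ℝ)) * p.1, p.2) u - fG D ch ζ R ((γ : SL(2, ℝ)) * p.1, p.2) u = _
      rw [hM0.1.inv γ p, hM0.2.2.1.inv γ p]
    · intro p hp
      rw [hOK.fl0 p.2 p.1]
      exact (HD0 R Γ B D p 0 hRd hOK (NSA_win hW hp.2) (by rw [abs_zero]; positivity)).1
  have part1 : ∀ v, FP Γ F v → nn F (sF D R t (pv D ch ζ ζ1 R t) v) ≤ (1 + R ^ (-(1 / 4) : ℝ)) ^ 2 * nP F 2 R v := by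
    intro v hv
    have hnP : 0 ≤ nP F 2 R v := integral_nonneg (fun p => by positivity)
    set N : ℝ := Real.sqrt (nP F 2 R v) with hN
    have hN0 : 0 ≤ N := Real.sqrt_nonneg _
    have hN2 : N ^ 2 = nP F 2 R v := Real.sq_sqrt hnP
    obtain ⟨b, g1, g2, g3, g4, g5, g6⟩ := hNFD ch ζ ζ1 R k Γ F B D v hch hζ0 hζζ1 (by linarith) (hη ζ1 (by linarith)) hW hR2' hDm hOK hv t ht0
    set ε : ℝ := R ^ (1 + CM * ζ1) * R ^ (-(3 / 2) + CF * (CM * ζ1)) * N with hε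
    have hε0 : 0 ≤ ε := by positivity
    have hEr : ∀ s ∈ Icc 0 t, nn F (fun z => -(Complex.I * sF D R s (fun q => Er D ch ζ ζ1 R s q) v z)) ≤ ε ^ 2 := by
      intro s hs
      have hs' : |s| ≤ e * Real.log R := by rw [abs_of_nonneg hs.1]; exact hs.2.trans ht
      have k1 := (HF1 R (R ^ (1 + CM * ζ1)) s Γ F B D (Er D ch ζ ζ1 R s) hRa hDm hOK (by positivity) (hM s hs').2.1).1 v hv
      have k2 : nn F (fun z => -(Complex.I * sF D R s (fun q => Er D ch ζ ζ1 R s q) v z)) = nn F (sF D R s (Er D ch ζ ζ1 R s) v) := by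
        unfold nn
        refine integral_congr_ae (Eventually.of_forall fun z => ?_)
        show ‖-(Complex.I * sF D R s (fun q => Er D ch ζ ζ1 R s q) v z)‖ ^ 2 = ‖sF D R s (Er D ch ζ ζ1 R s) v z‖ ^ 2
        rw [norm_neg, norm_mul, Complex.norm_I, one_mul]
      rw [k2]
      refine k1.trans (le_of_eq ?_)
      rw [hε, mul_pow _ N, hN2]
    -- energy estimate
    have hen := hNEN Γ F D.U k R t ε b (fun s z => ∫ q in GW 2 R, v q * psi D ch ζ ζ1 R s q z ∂mP)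
      (fun s z => -(Complex.I * sF D R s (fun q => Er D ch ζ ζ1 R s q) v z)) hDm hk hPU hR1' ht0 hε0
      (fun s hs => ⟨(g1 s hs).1, (g1 s hs).2.1, ⟨(continuous_const.mul (g1 s hs).2.2.cont).neg, fun γ z => by
        rw [(g1 s hs).2.2.inv γ z], by
        obtain ⟨b', hb'⟩ := (g1 s hs).2.2.supp
        exact ⟨b', fun z hz h0 => hb' z hz (fun h1 => h0 (by rw [h1]; simp))⟩⟩, hEr s hs⟩)
      (fun s hs z hz h0 => g2 s hs z hz (by
        rcases h0 with h0 | h0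
        · exact Or.inl h0
        · exact Or.inr (fun h1 => h0 (by rw [h1]; simp))))
      g3 g4 ((continuousOn_const.mul g5).neg) g6
    -- the initial value
    have hfr0 := HR Γ F B D K2 (C0 * ζ1) (R ^ (-2 : ℝ)) R 0 f0 hDm hOK hp4 (by linarith) (by positivity) (hη _ (by linarith)) hW hR1' hfa0
    have hfrG := HR Γ F B D K1 (CM * ζ1) (R ^ (3 / 2 + CM * ζ1)) R 0 (fG D ch ζ R) hDm hOK hp3 (by linarith) (by positivity) (hη _ (by linarith)) hW hR1' hM0.2.2.1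
    have hFH0 : FH Γ F (sF D R 0 f0 v) := hfr0.2.2.2.1 v hv
    have hFHG : FH Γ F (sF D R 0 (fG D ch ζ R) v) := hfrG.2.2.2.1 v hv
    have hQs : Qs D.U ch ζ R v = sF D R 0 (fG D ch ζ R) v := by
      funext z
      unfold Qs sF
      simp only [hM0.2.2.2.2]
    have hw0 : (fun z => ∫ q in GW 2 R, v q * psi D ch ζ ζ1 R 0 q z ∂mP) = fun z => sF D R 0 (fG D ch ζ R) v z + sF D R 0 f0 v z := by
      funext z
      have i1 := NSA_int hVDM HR hDm hOK hp3 (by linarith) (by positivity) (hη _ (by linarith)) hW hR1' hM0.2.2.1 hv z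
      have i2 := NSA_int hVDM HR hDm hOK hp4 (by linarith) (by positivity) (hη _ (by linarith)) hW hR1' hfa0 hv z
      unfold sF
      rw [← integral_add i1 i2]
      refine integral_congr_ae (Eventually.of_forall fun q => ?_)
      show v q * psi D ch ζ ζ1 R 0 q z = v q * pF D 0 (fG D ch ζ R) q z + v q * pF D 0 f0 q z
      rw [← mul_add]
      congr 1
      show pv D ch ζ ζ1 R 0 q (cd ((D.fl q.2 0 q.1)⁻¹ • z)) = fG D ch ζ R q (cd ((D.fl q.2 0 q.1)⁻¹ • z)) +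
        (pv D ch ζ ζ1 R 0 q (cd ((D.fl q.2 0 q.1)⁻¹ • z)) - fG D ch ζ R q (cd ((D.fl q.2 0 q.1)⁻¹ • z)))
      ring
    have hq1 : Real.sqrt (nn F (sF D R 0 (fG D ch ζ R) v)) ≤ N := by
      rw [← hQs]
      exact Real.sqrt_le_sqrt ((HQ R Γ F D.U hRe hDm hPU).2 v hv)
    have hq2 : Real.sqrt (nn F (sF D R 0 f0 v)) ≤ R ^ (-2 : ℝ) * R ^ (-(3 / 2) + CF * (C0 * ζ1)) * N := by
      have k1 := (HF2 R (R ^ (-2 : ℝ)) 0 Γ F B D f0 hRc hDm hOK (by positivity) hfa0).1 v hv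
      have k3 : 0 ≤ R ^ (-2 : ℝ) * R ^ (-(3 / 2) + CF * (C0 * ζ1)) := by positivity
      rw [← hN2, ← mul_pow] at k1
      calc Real.sqrt (nn F (sF D R 0 f0 v)) ≤ Real.sqrt ((R ^ (-2 : ℝ) * R ^ (-(3 / 2) + CF * (C0 * ζ1)) * N) ^ 2) := Real.sqrt_le_sqrt k1
        _ = R ^ (-2 : ℝ) * R ^ (-(3 / 2) + CF * (C0 * ζ1)) * N := Real.sqrt_sq (mul_nonneg k3 hN0)
    have hq3 := VSA_mink hDm hFHG hFH0
    rw [← hw0] at hq3
    have hfin : Real.sqrt (nn F (fun z => ∫ q in GW 2 R, v q * psi D ch ζ ζ1 R t q z ∂mP)) ≤ (1 + R ^ (-(1 / 4) : ℝ)) * N := by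
      have k1 : R ^ (-2 : ℝ) * R ^ (-(3 / 2) + CF * (C0 * ζ1)) = R ^ (-2 + (-(3 / 2) + CF * (C0 * ζ1))) := (Real.rpow_add hR0 _ _).symm
      have k2 : R ^ (1 + CM * ζ1) * R ^ (-(3 / 2) + CF * (CM * ζ1)) = R ^ (1 + CM * ζ1 + (-(3 / 2) + CF * (CM * ζ1))) := (Real.rpow_add hR0 _ _).symm
      have k3 := hnum t (1 + CM * ζ1 + (-(3 / 2) + CF * (CM * ζ1))) (-2 + (-(3 / 2) + CF * (C0 * ζ1))) htlog ht0 (by linarith) (by linarith)
      rw [← k1, ← k2] at k3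
      have k4 := mul_le_mul_of_nonneg_right k3 hN0
      refine hen.trans ?_
      have k5 := hq3.trans (add_le_add hq1 hq2)
      refine (add_le_add_left k5 _).trans ?_
      rw [hε]
      linarith
    have hsF : sF D R t (pv D ch ζ ζ1 R t) v = fun z => ∫ q in GW 2 R, v q * psi D ch ζ ζ1 R t q z ∂mP := rfl
    rw [hsF, ← hN2, ← mul_pow]
    have hnn : 0 ≤ nn F (fun z => ∫ q in GW 2 R, v q * psi D ch ζ ζ1 R t q z ∂mP) := integral_nonneg (fun z => by positivity)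
    rw [← Real.sq_sqrt hnn]
    exact pow_le_pow_left₀ (Real.sqrt_nonneg _) hfin 2
  refine ⟨part1, ?_⟩
  intro φ hφ
  have htabs : |t| ≤ e * Real.log R := by rw [abs_of_nonneg ht0]; exact ht
  have hfr := HR Γ F B D K1 (CM * ζ1) (R ^ (3 / 2 + CM * ζ1)) R t (pv D ch ζ ζ1 R t) hDm hOK hp3 (by linarith) (by positivity) (hη _ (by linarith)) hW hR1' (hM t htabs).1
  obtain ⟨-, -, -, hFHs, hFPa, hdual⟩ := hfr
  set P : SL(2, ℝ) × ℝ → ℂ := aF D R t (pv D ch ζ ζ1 R t) φ with hP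
  have hPF : FP Γ F P := hFPa φ hφ
  have hSP : FH Γ F (sF D R t (pv D ch ζ ζ1 R t) P) := hFHs P hPF
  have hd := hdual φ P hφ hPF
  have hx0 : 0 ≤ nP F 2 R P := integral_nonneg (fun p => by positivity)
  have hφ0 : 0 ≤ nn F φ := integral_nonneg (fun z => by positivity)
  have e4 : ∫ p in PW F 2 R, P p * conj (P p) ∂mP = ((nP F 2 R P : ℝ) : ℂ) := by
    rw [nP, ← integral_complex_ofReal]
    congr 1
    funext z
    rw [Complex.mul_conj, Complex.normSq_eq_norm_sq]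
  rw [← hP, e4] at hd
  have e5 : nP F 2 R P ≤ Real.sqrt (nn F φ) * Real.sqrt (nn F (sF D R t (pv D ch ζ ζ1 R t) P)) := by
    have e6 : nP F 2 R P = ‖((nP F 2 R P : ℝ) : ℂ)‖ := by rw [Complex.norm_real, Real.norm_of_nonneg hx0]
    rw [e6, hd]
    refine (norm_integral_le_integral_norm _).trans ?_
    have e7 : ∀ z, ‖φ z * conj (sF D R t (pv D ch ζ ζ1 R t) P z)‖ = ‖φ z‖ * ‖sF D R t (pv D ch ζ ζ1 R t) P z‖ := by
      intro z
      rw [norm_mul, RCLike.norm_conj]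
    simp only [e7]
    exact VSA_csn hDm hφ hSP
  have e8 : Real.sqrt (nn F (sF D R t (pv D ch ζ ζ1 R t) P)) ≤ (1 + R ^ (-(1 / 4) : ℝ)) * Real.sqrt (nP F 2 R P) := by
    have k1 := part1 P hPF
    have k2 : 0 ≤ 1 + R ^ (-(1 / 4) : ℝ) := by positivity
    calc Real.sqrt (nn F (sF D R t (pv D ch ζ ζ1 R t) P)) ≤ Real.sqrt ((1 + R ^ (-(1 / 4) : ℝ)) ^ 2 * nP F 2 R P) := Real.sqrt_le_sqrt k1
      _ = (1 + R ^ (-(1 / 4) : ℝ)) * Real.sqrt (nP F 2 R P) := by rw [Real.sqrt_mul (by positivity), Real.sqrt_sq k2]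
  set x : ℝ := Real.sqrt (nP F 2 R P) with hx
  have hxx : x ^ 2 = nP F 2 R P := Real.sq_sqrt hx0
  have hxn : 0 ≤ x := Real.sqrt_nonneg _
  set y : ℝ := Real.sqrt (nn F φ) with hy
  have hyy : y ^ 2 = nn F φ := Real.sq_sqrt hφ0
  have hyn : 0 ≤ y := Real.sqrt_nonneg _
  set c : ℝ := 1 + R ^ (-(1 / 4) : ℝ) with hc
  have hcn : 0 ≤ c := by positivity
  have e9 : x ^ 2 ≤ (c * y) * x := by
    rw [hxx]
    refine e5.trans ((mul_le_mul_of_nonneg_left e8 hyn).trans (le_of_eq ?_))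
    ring
  have e10 : x ≤ c * y := by
    rcases hxn.eq_or_lt with h | h
    · rw [← h]; positivity
    · nlinarith
  rw [← hxx, ← hyy, ← mul_pow]
  exact pow_le_pow_left₀ hxn e10 2

end

end Pool.Agent.VN
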