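import Pool.Agent.helper55.VN.SpecD

/-!
# Project VN (MP_07c750_an), row QDH: the eigenfunction and the operator `Hop` (helper5)
-/

set_option autoImplicit false

open scoped MatrixGroups ContDiff Topology UpperHalfPlane ComplexConjugate ENNReal
open UpperHalfPlane MeasureTheory Filter Set

namespace Pool.Agent.VN

open Pool.Agent.RS Pool.Agent.VQ
open Pool.Agent.RPQ (CEig mean VV IsOp)

/-- a function of class `C²` on `ℍ` is continuous -/
theorem QDH_cont (φ : ℍ → ℂ) (h : QU.CD 2 φ) : Continuous φ := by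
  have h1 : ContinuousOn (QU.onC φ) {w : ℂ | 0 < w.im} := h.continuousOn
  have h2 : Continuous (fun z : ℍ => QU.onC φ (z : ℂ)) :=
    h1.comp_continuous UpperHalfPlane.continuous_coe (fun z => z.im_pos)
  have h3 : (fun z : ℍ => QU.onC φ (z : ℂ)) = φ := by
    funext z
    simp only [QU.onC, ofComplex_apply]
  rwa [h3] at h2

theorem QDH_root {c R : ℝ} (n : ℕ) (hn : n ≠ 0) (hc : 0 < c) (h : c ^ n ≤ R) : c ≤ R ^ (1 / (n : ℝ)) := by
  have h1 : c = (c ^ n) ^ (1 / (n : ℝ)) := by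
    rw [one_div, Real.pow_rpow_inv_natCast hc.le hn]
  rw [h1]
  exact Real.rpow_le_rpow (by positivity) h (by positivity)

/-- the main estimate for the factor -/
theorem QDH_main {R μ x f : ℝ} (hR : 2 ≤ R) (hμ : 0 < μ) (hμ1 : |Real.sqrt μ - R| ≤ R ^ (-(1 / 100) : ℝ))
    (hf : |f| ≤ R ^ (1 / 100 : ℝ) / R) (hx : |x - f| ≤ R ^ (-3 : ℝ)) :
    |μ / R ^ 2 * Real.exp x - 1 - f| ≤ 14 * (R ^ (-(1 / 100) : ℝ) / R) := by
  have hR0 : 0 < R := by linarith
  have hR1 : 1 ≤ R := by linarith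
  set η : ℝ := R ^ (-(1 / 100) : ℝ) with hη
  have hη0 : 0 < η := Real.rpow_pos_of_pos hR0 _
  have hη1 : η ≤ 1 := Real.rpow_le_one_of_one_le_of_nonpos hR1 (by norm_num)
  have e1 : η / R = R ^ (-(101 / 100) : ℝ) := by
    rw [hη, ← Real.rpow_sub_one hR0.ne']
    congr 1
    norm_num
  have e2 : R ^ (1 / 100 : ℝ) / R = R ^ (-(99 / 100) : ℝ) := by
    rw [← Real.rpow_sub_one hR0.ne']
    congr 1
    norm_num
  set a : ℝ := R ^ (-(99 / 100) : ℝ) with ha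
  have ha0 : 0 < a := Real.rpow_pos_of_pos hR0 _
  have hb : R ^ (-3 : ℝ) ≤ R ^ (-(101 / 100) : ℝ) := Real.rpow_le_rpow_of_exponent_le hR1 (by norm_num)
  have hba : R ^ (-3 : ℝ) ≤ a := Real.rpow_le_rpow_of_exponent_le hR1 (by norm_num)
  have haa : a * a ≤ R ^ (-(101 / 100) : ℝ) := by
    rw [ha, ← Real.rpow_add hR0]
    exact Real.rpow_le_rpow_of_exponent_le hR1 (by norm_num)
  have ha2 : a ≤ 1 / 2 ∨ 1 / 2 < a := le_or_gt _ _
  have hxa : |x| ≤ 2 * a := by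
    have h1 : |x| ≤ |x - f| + |f| := by
      have h2 : x = (x - f) + f := by ring
      calc |x| = |(x - f) + f| := by rw [← h2]
        _ ≤ |x - f| + |f| := abs_add_le _ _
    rw [e2] at hf
    linarith
  have hb8 : R ^ (-3 : ℝ) ≤ 1 / 8 := by
    have h1 : R ^ (-3 : ℝ) = (R ^ 3)⁻¹ := by
      rw [Real.rpow_neg hR0.le]
      norm_num
    rw [h1, inv_eq_one_div]
    apply one_div_le_one_div_of_le (by norm_num)
    nlinarith [pow_le_pow_left₀ (by norm_num : (0 : ℝ) ≤ 2) hR 3]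
  have ha1 : a ≤ 3 / 4 := by
    have h1 : a ≤ (2 : ℝ) ^ (-(99 / 100) : ℝ) := Real.rpow_le_rpow_of_nonpos (by norm_num) hR (by norm_num)
    have h2 : (2 : ℝ) ^ (-(99 / 100) : ℝ) ≤ (2 : ℝ) ^ (-(1 / 2) : ℝ) :=
      Real.rpow_le_rpow_of_exponent_le (by norm_num) (by norm_num)
    have h3 : (2 : ℝ) ^ (-(1 / 2) : ℝ) ≤ 3 / 4 := by
      rw [Real.rpow_neg (by norm_num), ← Real.sqrt_eq_rpow]
      have h4 : (4 : ℝ) / 3 ≤ Real.sqrt 2 := Real.le_sqrt_of_sq_le (by norm_num)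
      rw [inv_le_comm₀ (by positivity) (by norm_num)]
      norm_num at h4 ⊢
      exact h4
    linarith
  have hx1 : |x| ≤ 1 := by
    have h1 : |x| ≤ |x - f| + |f| := by
      have h2 : x = (x - f) + f := by ring
      calc |x| = |(x - f) + f| := by rw [← h2]
        _ ≤ |x - f| + |f| := abs_add_le _ _
    rw [e2] at hf
    linarith
  have hexp : |Real.exp x - 1 - x| ≤ x ^ 2 := Real.abs_exp_sub_one_sub_id_le hx1
  have hx2 : x ^ 2 ≤ 4 * (a * a) := by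
    have h1 : x ^ 2 = |x| ^ 2 := (sq_abs x).symm
    rw [h1]
    nlinarith [abs_nonneg x]
  have he3 : Real.exp x ≤ 3 := by
    have h1 := (abs_le.1 hexp).2
    have h2 := (abs_le.1 hx1).2
    have h3 : x ^ 2 ≤ 1 := by
      rw [← sq_abs]
      nlinarith [abs_nonneg x]
    linarith
  have hmu : |μ / R ^ 2 - 1| ≤ 3 * (η / R) := by
    have h1 : μ = Real.sqrt μ ^ 2 := (Real.sq_sqrt hμ.le).symm
    have h2 : μ / R ^ 2 - 1 = (Real.sqrt μ - R) * ((Real.sqrt μ + R) / R ^ 2) := by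
      nth_rewrite 1 [h1]
      field_simp
      ring
    have h3 : 0 ≤ Real.sqrt μ := Real.sqrt_nonneg μ
    have h4 : Real.sqrt μ ≤ R + 1 := by
      have := (abs_le.1 hμ1).2
      linarith
    rw [h2, abs_mul, abs_of_nonneg (by positivity : 0 ≤ (Real.sqrt μ + R) / R ^ 2)]
    have h5 : (Real.sqrt μ + R) / R ^ 2 ≤ 3 / R := by
      rw [div_le_div_iff₀ (by positivity) hR0]
      nlinarith
    calc |Real.sqrt μ - R| * ((Real.sqrt μ + R) / R ^ 2) ≤ η * (3 / R) :=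
          mul_le_mul hμ1 h5 (by positivity) hη0.le
      _ = 3 * (η / R) := by ring
  have hsplit : μ / R ^ 2 * Real.exp x - 1 - f = (Real.exp x - 1 - x) + (x - f) + (μ / R ^ 2 - 1) * Real.exp x := by ring
  rw [hsplit]
  have h6 : |(μ / R ^ 2 - 1) * Real.exp x| ≤ 3 * (η / R) * 3 := by
    rw [abs_mul, abs_of_pos (Real.exp_pos x)]
    exact mul_le_mul hmu he3 (Real.exp_pos x).le (by positivity)
  have h7 := abs_add_le ((Real.exp x - 1 - x) + (x - f)) ((μ / R ^ 2 - 1) * Real.exp x)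
  have h8 := abs_add_le (Real.exp x - 1 - x) (x - f)
  rw [← e1] at hb haa
  linarith

theorem QDH_proof : QDH_stmt := by
  intro k hk
  refine ⟨max 2 (max ((7 / k) ^ 10100) ((1 + 1 / (2 * k)) ^ 900)), le_max_left _ _, ?_⟩
  intro Γ F U R f F' μ φ hR hSG hNice hPV hEg
  have hR2 : 2 ≤ R := (le_max_left _ _).trans hR
  have hRa : (7 / k) ^ 10100 ≤ R := (le_max_left _ _).trans ((le_max_right _ _).trans hR)
  have hRb : (1 + 1 / (2 * k)) ^ 900 ≤ R := (le_max_right _ _).trans ((le_max_right _ _).trans hR)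
  have hR0 : 0 < R := by linarith
  have hR1 : 1 ≤ R := by linarith
  obtain ⟨hCD, hφi, hlap⟩ := hEg.eig
  have hφc : Continuous φ := QDH_cont φ hCD
  have hF'c : Continuous F' := hEg.inv.1
  have hUc : Continuous U := hPV.inv.1
  have hU0 : ∀ z, 0 < U z := fun z => lt_of_lt_of_le hk (hPV.bd z).1
  -- the factor
  have hfac : ∀ z, Hop U R φ z = (((2 * R)⁻¹ * (μ * Real.exp (F' z) - R ^ 2 * U z) : ℝ) : ℂ) * φ z := by
    intro z
    unfold Hop
    rw [hlap z]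
    push_cast
    ring
  have hexpF : ∀ z, Real.exp (F' z) = U z * Real.exp (F' z - Real.log (U z)) := by
    intro z
    rw [Real.exp_sub, Real.exp_log (hU0 z)]
    field_simp [(hU0 z).ne']
  have hkey : ∀ z, |(2 * R)⁻¹ * (μ * Real.exp (F' z) - R ^ 2 * U z) - R / 2 * (U z * f z)| ≤ R ^ (-(1 / 101) : ℝ) := by
    intro z
    have h1 := QDH_main (x := F' z - Real.log (U z)) hR2 hEg.mu0 hEg.mu1 (hEg.sm.bd z) (by
      have h2 := hEg.near z
      have h3 : F' z - Real.log (U z) - f z = F' z - (Real.log (U z) + f z) := by ring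
      rw [h3]
      exact h2)
    have h4 : (2 * R)⁻¹ * (μ * Real.exp (F' z) - R ^ 2 * U z) - R / 2 * (U z * f z) =
        (R / 2 * U z) * (μ / R ^ 2 * Real.exp (F' z - Real.log (U z)) - 1 - f z) := by
      rw [hexpF z]
      field_simp
      try ring
    rw [h4, abs_mul, abs_of_nonneg (by have := hU0 z; positivity : 0 ≤ R / 2 * U z)]
    have h5 : R / 2 * U z ≤ R / 2 * (1 / k) := mul_le_mul_of_nonneg_left (hPV.bd z).2 (by positivity)
    have h6 : (R / 2 * U z) * |μ / R ^ 2 * Real.exp (F' z - Real.log (U z)) - 1 - f z| ≤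
        (R / 2 * (1 / k)) * (14 * (R ^ (-(1 / 100) : ℝ) / R)) :=
      mul_le_mul h5 h1 (abs_nonneg _) (by positivity)
    refine h6.trans ?_
    have h7 : (R / 2 * (1 / k)) * (14 * (R ^ (-(1 / 100) : ℝ) / R)) = 7 / k * R ^ (-(1 / 100) : ℝ) := by
      field_simp
      try ring
    rw [h7]
    have h8 : 7 / k ≤ R ^ (1 / ((10100 : ℕ) : ℝ)) := QDH_root 10100 (by norm_num) (by positivity) hRa
    have h9 : R ^ (-(1 / 101) : ℝ) = R ^ (1 / ((10100 : ℕ) : ℝ)) * R ^ (-(1 / 100) : ℝ) := by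
      rw [← Real.rpow_add hR0]
      congr 1
      norm_num
    rw [h9]
    exact mul_le_mul_of_nonneg_right h8 (Real.rpow_nonneg hR0.le _)
  have hdiff : ∀ z, ‖Hop U R φ z - ((R / 2 * (U z * f z) : ℝ) : ℂ) * φ z‖ ≤ R ^ (-(1 / 101) : ℝ) * ‖φ z‖ := by
    intro z
    rw [hfac z, ← sub_mul, ← Complex.ofReal_sub, norm_mul, Complex.norm_real, Real.norm_eq_abs]
    exact mul_le_mul_of_nonneg_right (hkey z) (norm_nonneg _)
  -- supports
  obtain ⟨K, hK, hFK⟩ := hNice.rel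
  obtain ⟨b, hb⟩ := hK.isBounded.subset_closedBall (I : ℍ)
  have hsupp : ∀ z ∈ F, dist z I ≤ b := fun z hz => hb (hFK hz)
  refine ⟨⟨hφc, hφi, b, fun z hz _ => hsupp z hz⟩, hCD, ⟨?_, ?_, b, fun z hz _ => hsupp z hz⟩, hdiff, ?_⟩
  · have h1 : Hop U R φ = fun z => (((2 * R)⁻¹ * (μ * Real.exp (F' z) - R ^ 2 * U z) : ℝ) : ℂ) * φ z := funext hfac
    rw [h1]
    refine Continuous.mul (Complex.continuous_ofReal.comp ?_) hφc
    exact continuous_const.mul ((continuous_const.mul (Real.continuous_exp.comp hF'c)).sub (continuous_const.mul hUc))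
  · intro γ z
    rw [hfac, hfac, hEg.inv.2 γ z, hPV.inv.2 γ z, hφi γ z]
  · intro z
    have h1 := hdiff z
    have h2 : ‖((R / 2 * (U z * f z) : ℝ) : ℂ) * φ z‖ ≤ (1 / (2 * k) * R ^ (1 / 100 : ℝ)) * ‖φ z‖ := by
      rw [norm_mul, Complex.norm_real, Real.norm_eq_abs]
      refine mul_le_mul_of_nonneg_right ?_ (norm_nonneg _)
      rw [abs_mul, abs_mul, abs_of_pos (by positivity : 0 < R / 2), abs_of_pos (hU0 z)]
      have h3 : U z * |f z| ≤ (1 / k) * (R ^ (1 / 100 : ℝ) / R) :=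
        mul_le_mul (hPV.bd z).2 (hEg.sm.bd z) (abs_nonneg _) (by positivity)
      calc R / 2 * (U z * |f z|) ≤ R / 2 * ((1 / k) * (R ^ (1 / 100 : ℝ) / R)) :=
            mul_le_mul_of_nonneg_left h3 (by positivity)
        _ = 1 / (2 * k) * R ^ (1 / 100 : ℝ) := by
            field_simp
    have h4 : ‖Hop U R φ z‖ ≤ ‖Hop U R φ z - ((R / 2 * (U z * f z) : ℝ) : ℂ) * φ z‖ + ‖((R / 2 * (U z * f z) : ℝ) : ℂ) * φ z‖ := by
      have h5 : Hop U R φ z = (Hop U R φ z - ((R / 2 * (U z * f z) : ℝ) : ℂ) * φ z) + ((R / 2 * (U z * f z) : ℝ) : ℂ) * φ z := by ring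
      calc ‖Hop U R φ z‖ = ‖(Hop U R φ z - ((R / 2 * (U z * f z) : ℝ) : ℂ) * φ z) + ((R / 2 * (U z * f z) : ℝ) : ℂ) * φ z‖ := by rw [← h5]
        _ ≤ _ := norm_add_le _ _
    have h6 : R ^ (-(1 / 101) : ℝ) + 1 / (2 * k) * R ^ (1 / 100 : ℝ) ≤ R ^ (1 / 90 : ℝ) := by
      have h7 : R ^ (-(1 / 101) : ℝ) ≤ 1 := Real.rpow_le_one_of_one_le_of_nonpos hR1 (by norm_num)
      have h8 : 1 ≤ R ^ (1 / 100 : ℝ) := Real.one_le_rpow hR1 (by norm_num)
      have h9 : 1 + 1 / (2 * k) ≤ R ^ (1 / ((900 : ℕ) : ℝ)) := QDH_root 900 (by norm_num) (by positivity) hRb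
      have h10 : R ^ (1 / 90 : ℝ) = R ^ (1 / ((900 : ℕ) : ℝ)) * R ^ (1 / 100 : ℝ) := by
        rw [← Real.rpow_add hR0]
        congr 1
        norm_num
      rw [h10]
      have h11 : (1 + 1 / (2 * k)) * R ^ (1 / 100 : ℝ) ≤ R ^ (1 / ((900 : ℕ) : ℝ)) * R ^ (1 / 100 : ℝ) :=
        mul_le_mul_of_nonneg_right h9 (Real.rpow_nonneg hR0.le _)
      linarith
    calc ‖Hop U R φ z‖ ≤ R ^ (-(1 / 101) : ℝ) * ‖φ z‖ + (1 / (2 * k) * R ^ (1 / 100 : ℝ)) * ‖φ z‖ := by linarith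
      _ = (R ^ (-(1 / 101) : ℝ) + 1 / (2 * k) * R ^ (1 / 100 : ℝ)) * ‖φ z‖ := by ring
      _ ≤ R ^ (1 / 90 : ℝ) * ‖φ z‖ := mul_le_mul_of_nonneg_right h6 (norm_nonneg _)

end Pool.Agent.VN
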