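import Pool.Agent.helper55.VN.SpecD

/-!
# Project VN (MP_07c750_an), row QDY: the phases (helper5, copy of `Pool/Agent/helper2/VQ/EDY.lean`)
-/

set_option autoImplicit false

open scoped MatrixGroups ContDiff Topology UpperHalfPlane ComplexConjugate ENNReal
open UpperHalfPlane MeasureTheory Filter Set

namespace Pool.Agent.VN

open Pool.Agent.RS Pool.Agent.VQ
open Pool.Agent.RPQ (CEig mean VV IsOp)

theorem QDY_num : ∃ R0 : ℝ, ∀ R : ℝ, R0 ≤ R →
    R / 2 * (R ^ (-(98 / 100) : ℝ) * R ^ (-(1 / 3) : ℝ) * Real.log R) ≤ R ^ (-(1 / 4) : ℝ) := by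
  have h := (isLittleO_log_rpow_atTop (by norm_num : (0 : ℝ) < 1 / 20)).bound (by norm_num : (0 : ℝ) < 2)
  obtain ⟨R0, hR0⟩ := Filter.eventually_atTop.1 h
  refine ⟨max R0 1, fun R hR => ?_⟩
  have h1 : 1 ≤ R := (le_max_right _ _).trans hR
  have h0 : 0 < R := by linarith
  have h2 := hR0 R ((le_max_left _ _).trans hR)
  rw [Real.norm_of_nonneg (Real.log_nonneg h1), Real.norm_of_nonneg (Real.rpow_nonneg h0.le _)] at h2
  have e1 : R / 2 * (R ^ (-(98 / 100) : ℝ) * R ^ (-(1 / 3) : ℝ) * Real.log R) =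
      1 / 2 * (R ^ (1 : ℝ) * R ^ (-(98 / 100) : ℝ) * R ^ (-(1 / 3) : ℝ)) * Real.log R := by
    rw [Real.rpow_one]
    ring
  rw [e1, ← Real.rpow_add h0, ← Real.rpow_add h0]
  have h3 : 1 / 2 * R ^ ((1 : ℝ) + -(98 / 100) + -(1 / 3)) * Real.log R ≤
      1 / 2 * R ^ ((1 : ℝ) + -(98 / 100) + -(1 / 3)) * (2 * R ^ (1 / 20 : ℝ)) :=
    mul_le_mul_of_nonneg_left h2 (by positivity)
  refine h3.trans ?_
  have e2 : 1 / 2 * R ^ ((1 : ℝ) + -(98 / 100) + -(1 / 3)) * (2 * R ^ (1 / 20 : ℝ)) =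
      R ^ ((1 : ℝ) + -(98 / 100) + -(1 / 3)) * R ^ (1 / 20 : ℝ) := by ring
  rw [e2, ← Real.rpow_add h0]
  exact Real.rpow_le_rpow_of_exponent_le h1 (by norm_num)

theorem QDY_win {R k : ℝ} (hk : 0 < k) (hR : (2 / k) ^ 4 ≤ R) {p : SL(2, ℝ) × ℝ} (hp : p ∈ GW 2 R) : |p.2| ≤ k := by
  have h1 : p.2 ∈ Wi 2 R := hp.2
  have h2 : |p.2| ≤ 2 * R ^ (-(1 / 4) : ℝ) := abs_le.2 ⟨h1.1, h1.2⟩
  refine h2.trans ?_
  have h0 : 0 < 2 / k := by positivity
  have hR0 : 0 < R := lt_of_lt_of_le (by positivity) hR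
  have h3 : 2 / k ≤ R ^ (1 / 4 : ℝ) := by
    have h4 : 2 / k = ((2 / k) ^ 4) ^ (1 / 4 : ℝ) := by
      rw [← Real.rpow_natCast, ← Real.rpow_mul h0.le]
      norm_num
    rw [h4]
    exact Real.rpow_le_rpow (by positivity) hR (by norm_num)
  rw [Real.rpow_neg hR0.le]
  have h5 : 0 < R ^ (1 / 4 : ℝ) := Real.rpow_pos_of_pos hR0 _
  rw [div_le_iff₀ hk] at h3
  rw [← div_eq_mul_inv, div_le_iff₀ h5]
  linarith

theorem QDY_cont {Γ : Subgroup SL(2, ℝ)} {k : ℝ} {B : ℕ → ℝ} {D : Dyn} (hD : OKN Γ k B D) (G : ℍ → ℝ) (hG : Continuous G)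
    (E : ℝ) (hE : |E| ≤ k) (g : SL(2, ℝ)) : Continuous fun s : ℝ => G (D.fl E s g • I) := by
  have h1 : Continuous fun s : ℝ => D.fl E s g :=
    hD.cfl.comp_continuous (f := fun s : ℝ => ((E, s, g) : ℝ × ℝ × SL(2, ℝ))) (by fun_prop) fun _ => hE
  exact hG.comp (h1.smul continuous_const)

theorem QDY_proof (hQDG : QDG_stmt) (hQDL : QDL_stmt) (hNHA : NHA_stmt) : QDY_stmt := by
  intro k hk
  obtain ⟨C, hC, hG⟩ := hQDG k hk
  obtain ⟨R3, hR3', hL⟩ := hQDL k hk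
  obtain ⟨CH, hCH, hH⟩ := hNHA k hk
  refine ⟨C, hC, fun B A hA => ?_⟩
  obtain ⟨R1, hR1, hG⟩ := hG B A hA
  obtain ⟨R2, hR2⟩ := QDY_num
  refine ⟨max (max R1 R2) (max R3 ((2 / k) ^ 4)), hR1.trans ((le_max_left _ _).trans (le_max_left _ _)), ?_⟩
  intro R Γ D f hR hD hf
  have hRR1 : R1 ≤ R := ((le_max_left _ _).trans (le_max_left _ _)).trans hR
  have hRR2 : R2 ≤ R := ((le_max_right _ _).trans (le_max_left _ _)).trans hR
  have hRR3 : R3 ≤ R := ((le_max_left _ _).trans (le_max_right _ _)).trans hR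
  have hRRk : (2 / k) ^ 4 ≤ R := ((le_max_right _ _).trans (le_max_right _ _)).trans hR
  have hR4 : 1 ≤ R := hR1.trans hRR1
  have hR0 : 0 < R := by linarith
  obtain ⟨-, -, hinv, -, hlip⟩ := hL Γ R B D f hRR3 hD hf
  have hcG : Continuous (fun z => D.U z * f z) := hinv.1
  have hcont := fun (E : ℝ) (hE : |E| ≤ k) (g : SL(2, ℝ)) => QDY_cont hD _ hcG E hE g
  refine ⟨?_, ?_⟩
  · intro s t p hp
    have hE := QDY_win hk hRRk hp
    have hc := hcont p.2 hE p.1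
    unfold thP
    have h1 : ∫ u in (0 : ℝ)..t, D.U (D.fl (D.ph s p).2 u (D.ph s p).1 • I) * f (D.fl (D.ph s p).2 u (D.ph s p).1 • I) =
        ∫ u in s..(s + t), D.U (D.fl p.2 u p.1 • I) * f (D.fl p.2 u p.1 • I) := by
      have h2 := intervalIntegral.integral_comp_add_right (a := 0) (b := t)
        (fun u => D.U (D.fl p.2 u p.1 • I) * f (D.fl p.2 u p.1 • I)) s
      rw [zero_add, add_comm t s] at h2
      rw [← h2]
      refine intervalIntegral.integral_congr fun u _ => ?_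
      show D.U (D.fl p.2 u (D.fl p.2 s p.1) • I) * f (D.fl p.2 u (D.fl p.2 s p.1) • I) = _
      rw [← (hH Γ B D hD p.2 u s hE p.1).1]
    rw [h1, ← mul_add]
    congr 1
    exact (intervalIntegral.integral_add_adjacent_intervals (hc.intervalIntegrable _ _) (hc.intervalIntegrable _ _)).symm
  · intro t p q hp hq hpq ht htu
    have hEp := QDY_win hk hRRk hp
    have hEq := QDY_win hk hRRk hq
    have hcp := hcont p.2 hEp p.1
    have hcq := hcont q.2 hEq q.1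
    unfold thP
    rw [← mul_sub, ← intervalIntegral.integral_sub (hcp.intervalIntegrable _ _) (hcq.intervalIntegrable _ _), abs_mul,
      abs_of_pos (by positivity : 0 < R / 2)]
    have h1 : ‖∫ u in (0 : ℝ)..t, (D.U (D.fl p.2 u p.1 • I) * f (D.fl p.2 u p.1 • I) -
        D.U (D.fl q.2 u q.1 • I) * f (D.fl q.2 u q.1 • I))‖ ≤ R ^ (-(98 / 100) : ℝ) * R ^ (-(1 / 3) : ℝ) * |t - 0| := by
      refine intervalIntegral.norm_integral_le_of_norm_le_const fun u hu => ?_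
      rw [uIoc_of_le ht] at hu
      rw [Real.norm_eq_abs]
      refine (hlip _ _).trans ?_
      exact mul_le_mul_of_nonneg_left (hG R u Γ D p q hRR1 hD hp hq hpq hu.1.le (hu.2.trans htu)) (by positivity)
    rw [Real.norm_eq_abs, sub_zero, abs_of_nonneg ht] at h1
    have h2 : t ≤ Real.log R := by
      refine htu.trans ?_
      have h3 := hA.tu
      have h4 : 0 ≤ Real.log R := Real.log_nonneg hR4
      have h5 : A.tu R = A.m * A.e3 * Real.log R := by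
        unfold Prm.tu Prm.sg
        ring
      rw [h5]
      nlinarith
    have h3 : R / 2 * (R ^ (-(98 / 100) : ℝ) * R ^ (-(1 / 3) : ℝ) * t) ≤
        R / 2 * (R ^ (-(98 / 100) : ℝ) * R ^ (-(1 / 3) : ℝ) * Real.log R) :=
      mul_le_mul_of_nonneg_left (mul_le_mul_of_nonneg_left h2 (by positivity)) (by positivity)
    exact (mul_le_mul_of_nonneg_left h1 (by positivity)).trans (h3.trans (hR2 R hRR2))

end Pool.Agent.VN
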